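import Mathlib
import Pool.Agent.MP_de0709_nt.A

set_option autoImplicit false

/-!
# MP_de0709_nt: almost all primes have very few classes that are not products of two smaller primes

Let `𝒬` be a set of primes (for the problem: the set of all primes), `R 𝒬 p x` the number of ordered
pairs `(q₁, q₂)` of elements of `𝒬` smaller than `p` with `q₁ q₂ ≡ x (mod p)`, and
`ev 𝒬 p = c² / p` its expected value, `c` being the number of elements of `𝒬` smaller than `p`.
If `𝒬` contains at least the proportion `δ` of the primes up to `X`, then the number of all pairs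
`(p, x)`, `p` a prime in `(X, 2X]`, `1 ≤ x ≤ p - 1`, with `|R 𝒬 p x - ev 𝒬 p| ≥ η ev 𝒬 p`, is at most
`10⁹ (δ η)⁻³ X (log X)²`.  As there are about `X / log X` primes in `(X, 2X]`, all of them but a
proportion `O((log X)³ / L)` have fewer than `L` exceptional classes.

The proof uses the large sieve inequality for prime moduli, applied to the sequence of products,
and an approximation of the `p`-dependent range `q < p` by `O(1 / (δ η))` fixed ranges.
-/

namespace Pool.Agent.Results.MP_de0709_nt.FewExceptions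

open Finset Pool.Agent.MP_de0709_nt

theorem result (𝒬 : Set ℕ) (h𝒬 : ∀ q ∈ 𝒬, Nat.Prime q) (X : ℕ) (hX : 2 ≤ X) (δ η : ℝ)
    (hδ : 0 < δ) (hδ1 : δ ≤ 1) (hη : 0 < η) (hη1 : η ≤ 1)
    (hdens : δ * (Nat.primeCounting X : ℝ) ≤ ((below 𝒬 (X + 1)).card : ℝ)) :
    ((∑ p ∈ (Ioc X (2 * X)).filter Nat.Prime,
        ((Icc 1 (p - 1)).filter fun x => η * ev 𝒬 p ≤ |(R 𝒬 p x : ℝ) - ev 𝒬 p|).card : ℕ) : ℝ)
      ≤ 10 ^ 9 / (δ * η) ^ 3 * X * Real.log X ^ 2 := by
  rw [← Nat.primesLE_card_eq_primeCounting] at hdens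
  exact part_A X hX 𝒬 h𝒬 δ hδ hδ1 hdens η hη hη1

end Pool.Agent.Results.MP_de0709_nt.FewExceptions
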