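import Pool.Agent.EPK.F3

/-!
# Every class modulo `p` is a prime times a product of at most nine primes

For every large prime `p` and every `x` prime to `p` there are at least
`c p^(999/1000) / log² p` primes `q < p` for which some squarefree
`m ≤ p^(999/1000)` with at most nine prime factors, all larger than `p^(1/41)`,
satisfies `q m ≡ x (mod p)`.
-/

set_option autoImplicit false

namespace Pool.Agent.Results.MP_de0709_nt.PrimeNine

theorem result : ∃ (c : ℝ) (p₀ : ℕ), 0 < c ∧ ∀ p : ℕ, p.Prime → p₀ ≤ p → ∀ x : ℕ, ¬ p ∣ x →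
    c * (p : ℝ) ^ (999 / 1000 : ℝ) / Real.log p ^ 2 ≤
    (Set.ncard {q : ℕ | q.Prime ∧ q < p ∧ ∃ m : ℕ, 0 < m ∧
      (m : ℝ) ≤ (p : ℝ) ^ (999 / 1000 : ℝ) ∧ Squarefree m ∧
      ArithmeticFunction.cardFactors m ≤ 9 ∧
      (∀ l : ℕ, l.Prime → l ∣ m → (p : ℝ) ^ (1 / 41 : ℝ) < l) ∧ q * m ≡ x [MOD p]} : ℝ) :=
  Pool.Agent.EPK.prime_times_P9

end Pool.Agent.Results.MP_de0709_nt.PrimeNine
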