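import Mathlib
import Pool.Agent.MP_de0709_nt.Parity

set_option autoImplicit false

/-!
# MP_de0709_nt: every prime modulus, products of two rough numbers of prescribed parities

There is an absolute constant `C` such that for EVERY prime `p`, every `y ≥ 2` with `y ^ C ≤ p`, every
class `a` modulo `p` prime to `p` and all `i, j` there are `m, n < y ^ C p` with `m n ≡ a (mod p)`, all
prime factors of `m` and of `n` larger than `y`, `Ω(m) ≡ i` and `Ω(n) ≡ j (mod 2)`.
For `y = p ^ (ε / C)`, `i = j = 1`: every class is `m n`, `m, n < p ^ (1 + ε)`, each of the two a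
product of an odd, bounded number of primes (the problem: `m, n < p`, one prime each).

Proof: if a pair of parities does not occur, the parity of `Ω(n)` is a function of `n mod p` for the
rough `n < y ^ c p` (compare `n ≡ n'` through a common rough partner; when `i = j` move one
prime `l ∈ (y, 2y]` from one factor to the other).  The rigidity theorem of `Pool.Agent.LBS` makes it
a quadratic character there, and a prime factor `l > y` of `p - 4 t²` or `p + 4 t²` is a square
modulo `p` with `Ω(l) = 1`, a contradiction.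
-/

namespace Pool.Agent.Results.MP_de0709_nt.RoughPairs

open Pool.Agent.MP_de0709_nt Pool.Agent.LBS

theorem result : ∃ C : ℕ, ∀ p : ℕ, p.Prime → ∀ y : ℕ, 2 ≤ y → y ^ C ≤ p →
    ∀ a : ℕ, ¬ p ∣ a → ∀ i j : ℕ, ∃ m n : ℕ,
      0 < m ∧ m < y ^ C * p ∧ 0 < n ∧ n < y ^ C * p ∧ m * n ≡ a [MOD p] ∧
      (∀ q : ℕ, q.Prime → q ∣ m → y < q) ∧ (∀ q : ℕ, q.Prime → q ∣ n → y < q) ∧
      ArithmeticFunction.cardFactors m ≡ i [MOD 2] ∧
      ArithmeticFunction.cardFactors n ≡ j [MOD 2] := by
  obtain ⟨B, hB1, hB2⟩ := sieve_two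
  have hB : SieveB B := ⟨hB1, hB2⟩
  refine ⟨2 * B + 14, fun p hp y hy hbig a _ i j => ?_⟩
  obtain ⟨m, n, hm, hn, hmL, hnL, hmod, h1, h2⟩ := parity_pairs hB hy hp hbig (a := a)
    (i : ZMod 2) (j : ZMod 2)
  refine ⟨m, n, hm.1, hmL, hn.1, hnL, hmod, hm.2, hn.2, ?_, ?_⟩
  · exact (ZMod.natCast_eq_natCast_iff _ _ _).1 h1
  · exact (ZMod.natCast_eq_natCast_iff _ _ _).1 h2

end Pool.Agent.Results.MP_de0709_nt.RoughPairs
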