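import Pool.Agent.QQA.Fin

/-!
# Small fractions as products of two primes modulo almost every prime, with a power saving
-/

set_option autoImplicit false

namespace Pool.Agent.Results.MP_de0709_nt.SmallFractions

open Finset

/-- There are `η, δ, c, C > 0` such that for every `X ≥ 2` all but at most `C X^(1 - δ)` of the primes `p ≤ X` have the following
property: for every real `Y` with `p^(1 - η) ≤ Y ≤ p` and all nonzero integers `a, b` of absolute value at most `p^δ` with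
`|b| Y² ≤ p²` at least `c Y² / (p log² p)` pairs of primes `q₁, q₂ ≤ Y` satisfy `b q₁ q₂ ≡ a` modulo `p`. -/
theorem result : ∃ η δ c C : ℝ, 0 < η ∧ 0 < δ ∧ 0 < c ∧ 0 < C ∧ ∀ X : ℝ, 2 ≤ X →
    ∃ E : Finset ℕ, (#E : ℝ) ≤ C * X ^ (1 - δ) ∧
      ∀ p : ℕ, p.Prime → (p : ℝ) ≤ X → p ∉ E → ∀ (Y : ℝ) (a b : ℤ),
        (p : ℝ) ^ (1 - η) ≤ Y → Y ≤ p → a ≠ 0 → b ≠ 0 → |(a : ℝ)| ≤ (p : ℝ) ^ δ →
        |(b : ℝ)| ≤ (p : ℝ) ^ δ → |(b : ℝ)| * Y ^ 2 ≤ (p : ℝ) ^ 2 →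
        c * Y ^ 2 / (p * Real.log p ^ 2) ≤
          #((Icc 1 ⌊Y⌋₊ ×ˢ Icc 1 ⌊Y⌋₊).filter (fun t : ℕ × ℕ => t.1.Prime ∧ t.2.Prime ∧
            (p : ℤ) ∣ b * t.1 * t.2 - a)) :=
  Pool.Agent.QQA.f_final

end Pool.Agent.Results.MP_de0709_nt.SmallFractions
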